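import Mathlib
import Pool.Agent.Zk31.SB.Res

/-!
# Central extensions of iterated wreath products of perfect groups over `A_n`

The definitions are in the files `Pool/Agent/Zk31/SB/Voc.lean`, `Pool/Agent/Zk31/SW/Voc4.lean`,
`Pool/Agent/Zk31/Voc.lean`, `Pool/Agent/N70/EP/VocQ.lean` and `Pool/Agent/N70/EO/VocE.lean`:

* `WreathOn Ω φ` is the wreath product `G^Ω ⋊ W`, where the group `W` acts on the set `Ω`, permutes
  the coordinates and acts on them through `φ : W → Aut G`; here always `φ = 1`, that is, the
  coordinates are only permuted; `wreathPr Ω φ` is the projection to `W`.
* `PerfectOver N n p`, for a homomorphism `p : W → S_n`, is the smallest class which contains `A_n`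
  with its inclusion in `S_n` and which contains, with `p : W → S_n`, the wreath product `G^Ω ⋊ W` for
  ALL perfect groups `G` of order at most `N` and all finite sets `Ω` with an action of `W` which have
  a `W`-equivariant map to `{1, ..., n}`, and all perfect finite central extensions of `W`.
* `CentralOverAlt ρ`: the homomorphism `ρ : S → S_n` makes `S` a central extension of `A_n`, for
  example `A_n` itself or its double cover `2.A_n`.
* `CentralExtensionOf X Y`: there is a surjective homomorphism `X → Y` whose kernel is contained in
  the centre of `X`.
* `RealizableAll X`: for every field `K` of characteristic `0` the group `X` is the group of a Galois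
  extension of `K(t)` in which `K` is algebraically closed; if `K` is Hilbertian or a number field
  (for example `K = ℚ`), `X` is the group of a Galois extension of `K`.
* `AbundantMultiples 1 A`: the property `A` holds for almost all numbers `n` divisible by `8`, in the
  sense of natural density (`AlmostAllNumbers`), and for all `n = 4 r (2 k + 1)` with `r` even,
  `r ≥ r₀` and `k ≥ k₀(r)`.

The theorem: for every `N` the following holds for almost all `n` divisible by `8`, and for all
`n = 4 r (2 k + 1)` with `r` even, `r ≥ r₀(N)`, `k ≥ k₀(N, r)`:

1. ALL finite central extensions `X` of all groups `W` in the class `PerfectOver N n` are Galois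
   groups over `ℚ`, over all number fields and all Hilbertian fields of characteristic `0`, and
   groups of regular extensions of `K(t)` for all fields `K` of characteristic `0`.
2. This holds for all finite central extensions `X` of `G^Ω ⋊ S`, for EVERY perfect group `G` of order
   at most `N`, every perfect finite central extension `S` of `A_n`, for example `A_n` and `2.A_n`,
   and every finite set `Ω` with an action of `S` which has an equivariant map to `{1, ..., n}`, for
   example `Ω = {1, ..., n}` or `Ω = S` (the standard wreath product). No realization of `G` is
   assumed.
-/

set_option autoImplicit false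

open Pool.Agent.N70.EP.Voc (RealizableAll)
open Pool.Agent.Zk31.SW.V Pool.Agent.Zk31.SB.V Pool.Agent.Zk31.Voc

theorem Pool.Agent.Results.MP_dadaab_nt.CentralExtensionsWreath.result (N : ℕ) :
    AbundantMultiples 1 (fun n =>
      (∀ (W : Type) [Group W] (p : W →* Equiv.Perm (Fin n)), PerfectOver N n p →
        ∀ (X : Type) [Group X] [Finite X], CentralExtensionOf X W → RealizableAll X) ∧
      (∀ (S : Type) [Group S] [Finite S] (ρ : S →* Equiv.Perm (Fin n)), CentralOverAlt ρ →
        commutator S = ⊤ → ∀ (G : Type) [Group G] [Finite G], Nat.card G ≤ N →
        commutator G = ⊤ → ∀ (Ω : Type) [Finite Ω] [MulAction S Ω] (f : Ω → Fin n),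
        (∀ (s : S) (ω : Ω), f (s • ω) = ρ s (f ω)) →
        ∀ (X : Type) [Group X] [Finite X],
        CentralExtensionOf X (WreathOn Ω (1 : S →* MulAut G)) → RealizableAll X)) :=
  Pool.Agent.Zk31.SB.central_final N
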