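import Mathlib
import Pool.Agent.Zk31.Fin2

/-!
# Wreath products with nonsplit covers of `A_n`, and their fibre powers

The definitions are in the files `Voc.lean`, `VocC.lean`, `VocQ.lean` of `Pool/Agent/N70/EP`,
`Pool/Agent/N70/EO/VocE.lean` and `Pool/Agent/Zk31/Voc.lean`:

* `CentralOverAlt ρ`: the homomorphism `ρ : S → S_n` makes `S` a central extension of `A_n` (split or
  not, for example the double cover `2.A_n`); `WreathBy G ρ` is the wreath product
  `G ≀ S = G^n ⋊ S`, in which `S` permutes the coordinates through `ρ`.
* For a homomorphism `α : B → W`, `FibrePower α ρ` is the group of all `(x, w)` with `x` in `B ≀ S`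
  and `w` in `W` such that `α` maps all coordinates of `x` to `w`; it is an extension of `W` by
  `(ker α) ≀ S`. `IsSplittingIndex α I`: `I` is the greatest common divisor of the indices of the
  subgroups of `W` over which `α` splits.
* `RealizableAll X`: for every field `K` of characteristic `0`, `X` is the Galois group of a Galois
  extension of `K(t)` in which `K` is algebraically closed; if `K` is Hilbertian, for example a number
  field (`K = ℚ`), `X` is a Galois group over `K`.
* `RealizableIff X Y`: for every field `K` of characteristic `0`, `X` is regularly realizable over
  `K` if and only if `Y` is; if `K` is Hilbertian, for example a number field, `X` is a Galois group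
  over `K` if and only if `Y` is.
* `AbundantMultiples I A`: `A` holds for almost all `n` (natural density) which are divisible by `8`
  and `4 I`, and for all `n = 4 r (2 k + 1)` with `2 ∣ r`, `I ∣ r`, `r ≥ r₀` and `k ≥ k₀(r)`.

For every surjective homomorphism `α : B → W` of finite groups with index `I`, almost all `n`
divisible by `8` and `4 I`, and every finite central extension `S` of `A_n` the fibre power of `α` by
`S` is a Galois group over `ℚ` if and only if `W` is. In the case `W = 1` (stated first): for EVERY
finite group `G` (no realization of `G` is assumed), almost all `n` divisible by `8` and every finite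
central extension `S` of `A_n` the group `G ≀ S` is a Galois group over `ℚ`.
-/

set_option autoImplicit false

open Pool.Agent.N70.EP.Voc
open Pool.Agent.Zk31.Voc

theorem Pool.Agent.Results.MP_dadaab_nt.CoverFibrePowers.result :
    (∀ (G : Type) [Group G] [Finite G],
      AbundantMultiples 1 (fun n => ∀ (S : Type) [Group S] [Finite S]
        (ρ : S →* Equiv.Perm (Fin n)), CentralOverAlt ρ → RealizableAll (WreathBy G ρ))) ∧
    ∀ (W B : Type) [Group W] [Finite W] [Group B] [Finite B] (α : B →* W),
      Function.Surjective α → ∀ I : ℕ, IsSplittingIndex α I →
      AbundantMultiples I (fun n => ∀ (S : Type) [Group S] [Finite S]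
        (ρ : S →* Equiv.Perm (Fin n)), CentralOverAlt ρ →
        RealizableIff (FibrePower α ρ) W) :=
  ⟨fun G _ _ => Pool.Agent.Zk31.final1 G,
    fun _ _ _ _ _ _ α hα I hI => Pool.Agent.Zk31.final3 α hα I hI⟩
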