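import Mathlib
import Pool.Agent.Zk31.SA.VF

/-!
# Standard wreath products over covers of alternating groups, as steps of embedding problems

The definitions are in the files `Pool/Agent/Zk31/SA/Voc.lean`, `Pool/Agent/Zk31/SW/Voc4.lean`,
`Pool/Agent/Zk31/Voc.lean` and, for the solutions of embedding problems, in
`Pool/Agent/N70/EP/Voc.lean`, `VocQ.lean` and `Pool/Agent/N70/EO/VocE.lean`:

* `UniversalStep q`, for a homomorphism `q : W' → W` of finite groups: for all fields `K` of
  characteristic `0` and all Galois extensions `M` of `K` with group `W` the embedding problem given
  by `q` has a regular solution: `M(t)` is contained in a Galois extension of `K(t)` with group `W'`,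
  in which `M` is algebraically closed, such that the action on `M` is given by `q`.
* `CentralOverAlt ρ`: the homomorphism `ρ : S → S_n` makes `S` a central extension of `A_n`, split or
  not, for example `A_n` itself or its double cover `2.A_n`.
* `WreathOn Ω φ` is the wreath product `A^Ω ⋊ W`, where the group `W` acts on the set `Ω`, permutes
  the coordinates and acts on them through `φ : W → Aut A` (`mapsAction φ` is this action, for `φ = 1`
  the coordinates are only permuted); `wreathPr Ω φ` is the projection to `W`.
* `OverCover N n C p π`, for homomorphisms `p : W → S_n`, `π : W → W₀` and a normal subgroup `C` of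
  `W₀`, is the smallest class which contains `W₀ × S` (with `ρ` on the second factor and the first
  projection) for ALL finite central extensions `ρ : S → A_n`, which contains, with `(W, p, π)`, the
  wreath product `A^Ω ⋊ W` (with `p` and `π` composed with the projection to `W`) for ALL groups `A`
  of order at most `N` on which `W₀` acts through `W₀ / C` and all finite sets `Ω` with an action of
  `W` which have a `W`-equivariant map to `{1, ..., n}`, which contains, with `(W, p, π)`, also
  `(W', p ∘ q, π ∘ q)` for all universal steps `q : W' → W`, `W'` finite, `q` surjective, and which is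
  closed under quotients.
* `RealizableAll X`: for every field `K` of characteristic `0` the group `X` is the group of a Galois
  extension of `K(t)` in which `K` is algebraically closed; if `K` is Hilbertian or a number field
  (for example `K = ℚ`), `X` is the group of a Galois extension of `K`.
* `AbundantMultiples 1 A`: the property `A` holds for almost all numbers `n` divisible by `8`, in the
  sense of natural density (`AlmostAllNumbers`), and for all `n = 4 r (2 k + 1)` with `r` even,
  `r ≥ r₀` and `k ≥ k₀(r)`.

The theorem: for every `N` the following holds for almost all `n` divisible by `8`, and for all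
`n = 4 r (2 k + 1)` with `r` even, `r ≥ r₀(N)`, `k ≥ k₀(N, r)`:

1. If the index of `C` in the finite group `W₀` is at most `N` and `(W, p, π)` is in the class
   `OverCover N n C`, then `π : W → W₀` is a universal step.
2. This holds for `G^Ω ⋊ (W₀ × S) → W₀`, for EVERY finite central extension `S` of `A_n`, EVERY group
   `G` of order at most `N`, on which the finite group `W₀` acts through a quotient of order at most
   `N`, and every finite set `Ω` with an action of `W₀ × S` which has an equivariant map to
   `{1, ..., n}`. For example `Ω = W₀ × S` with multiplication from the left: every finite Galois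
   extension `L` of `ℚ` is contained in a Galois extension of `ℚ` whose group is the standard wreath
   product of `G` by `Gal(L/ℚ) × 2.A_n`. No realization of `G` is assumed.
3. For EVERY group `G` of order at most `N`, every finite central extension `S` of `A_n` and every
   finite set `Ω` with an action of `S` which has an equivariant map to `{1, ..., n}`, for example
   `Ω = S`, the group `G^Ω ⋊ S` is a Galois group over `ℚ`, over all number fields and all Hilbertian
   fields of characteristic `0`, and the group of a regular extension of `K(t)` for all fields `K` of
   characteristic `0`.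
-/

set_option autoImplicit false

open Pool.Agent.N70.EP.Voc (RealizableAll)
open Pool.Agent.Zk31.Voc (CentralOverAlt AbundantMultiples)
open Pool.Agent.Zk31.SW.V Pool.Agent.Zk31.SA.V

theorem Pool.Agent.Results.MP_dadaab_nt.CoverWreathEmbeddings.result (N : ℕ) :
    AbundantMultiples 1 (fun n =>
      (∀ (W₀ W : Type) [Group W₀] [Finite W₀] [Group W] (C : Subgroup W₀) [C.Normal],
        C.index ≤ N → ∀ (p : W →* Equiv.Perm (Fin n)) (π : W →* W₀), OverCover N n C p π →
        UniversalStep π) ∧
      (∀ (S : Type) [Group S] [Finite S] (ρ : S →* Equiv.Perm (Fin n)), CentralOverAlt ρ →
        ∀ (G W₀ : Type) [Group G] [Finite G] [Group W₀] [Finite W₀] (φ : W₀ →* MulAut G),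
        Nat.card G ≤ N → φ.ker.index ≤ N → ∀ (Ω : Type) [Finite Ω] [MulAction (W₀ × S) Ω]
        (f : Ω → Fin n), (∀ (w : W₀ × S) (ω : Ω), f (w • ω) = ρ w.2 (f ω)) →
        UniversalStep ((MonoidHom.fst W₀ S).comp (wreathPr Ω (φ.comp (MonoidHom.fst W₀ S))))) ∧
      (∀ (S : Type) [Group S] [Finite S] (ρ : S →* Equiv.Perm (Fin n)), CentralOverAlt ρ →
        ∀ (G : Type) [Group G] [Finite G], Nat.card G ≤ N → ∀ (Ω : Type) [Finite Ω]
        [MulAction S Ω] (f : Ω → Fin n), (∀ (s : S) (ω : Ω), f (s • ω) = ρ s (f ω)) →
        RealizableAll (WreathOn Ω (1 : S →* MulAut G)))) :=
  Pool.Agent.Zk31.SA.vf N
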