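import Mathlib
import Pool.Agent.Zk31.SW.V4

/-!
# Every finite Galois extension lies in one whose group is a standard wreath product

The definitions are in the file `Pool/Agent/Zk31/SW/Voc4.lean` and, for the solutions of embedding
problems, in `Pool/Agent/N70/EP/Voc.lean`, `VocC.lean`, `VocQ.lean`:

* `UniversalStep q`, for a homomorphism `q : W' → W` of finite groups: for all fields `K` of
  characteristic `0` and all Galois extensions `M` of `K` with group `W` the embedding problem given
  by `q` has a regular solution: `M(t)` is contained in a Galois extension of `K(t)` with group `W'`,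
  in which `M` is algebraically closed, such that the action on `M` is given by `q`.
* `WreathOn Ω φ` is the wreath product `A^Ω ⋊ W`, where the group `W` acts on the set `Ω`, permutes
  the coordinates and acts on them through `φ : W → Aut A` (`mapsAction φ` is this action, for `φ = 1`
  the coordinates are only permuted); `wreathPr Ω φ` is the projection to `W`.
* `Over N n C p π`, for homomorphisms `p : W → S_n`, `π : W → W₀` and a normal subgroup `C` of `W₀`,
  is the smallest class which contains `W₀ × S_n` with the two projections, which contains, with
  `(W, p, π)`, the wreath product `A^Ω ⋊ W` (with `p` and `π` composed with the projection to `W`) for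
  ALL groups `A` of order at most `N` on which `W₀` acts through `W₀ / C` and all finite sets `Ω` with
  an action of `W` which have a `W`-equivariant map to `{1, ..., n}`, which contains, with
  `(W, p, π)`, also `(W', p ∘ q, π ∘ q)` for all universal steps `q : W' → W`, `W'` finite, `q`
  surjective, and which is closed under quotients.
* `RealizableAll X`: for every field `K` of characteristic `0` the group `X` is the group of a Galois
  extension of `K(t)` in which `K` is algebraically closed; if `K` is Hilbertian or a number field
  (for example `K = ℚ`), `X` is the group of a Galois extension of `K`.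
* `RegularTower p e₀`, `ProperTower p e₀`, for a sequence `W 0 ← W 1 ← W 2 ← ...` of finite groups and
  an isomorphism `e₀` of `W 0` with `Gal(L/K)`: the embedding problem given by the projection of the
  inverse limit to `W 0` has a regular solution over `K(t)`, a proper solution over `K`.

The theorem: there is `n₀ : ℕ → ℕ` such that for all `N` and `n ≥ n₀ N`:

1. If the index of `C` in the finite group `W₀` is at most `N` and `(W, p, π)` is in the class
   `Over N n C`, then `π : W → W₀` is a universal step.
2. This holds for `G^Ω ⋊ (W₀ × S_n) → W₀`, for EVERY finite group `G` of order at most `N`, on which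
   the finite group `W₀` acts through a quotient of order at most `N`, and every finite set `Ω` with
   an action of `W₀ × S_n` which has an equivariant map to `{1, ..., n}`. For example
   `Ω = W₀ × S_n` with multiplication from the left: for EVERY finite group `G` and `n ≥ n₀ |G|` every
   finite Galois extension `L` of `ℚ` is contained in a Galois extension of `ℚ` whose group is the
   standard wreath product of `G` by `Gal(L/ℚ) × S_n`. No realization of `G` is assumed.
3. For EVERY finite group `G` and `n ≥ n₀ |G|` the standard wreath product `G^(n!) ⋊ S_n` of `G` by
   `S_n` is a Galois group over `ℚ`, over all number fields and all Hilbertian fields of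
   characteristic `0`, and the group of a regular extension of `K(t)` for all fields `K` of
   characteristic `0`.
4. Universal steps can be iterated infinitely often, over all fields of characteristic `0`; over
   Hilbertian fields and number fields the inverse limit has a proper solution.
-/

set_option autoImplicit false

open Pool.Agent.N70.EP.Voc (RealizableAll RegularTower ProperTower Hilbertian)
open Pool.Agent.Zk31.SW.V

theorem Pool.Agent.Results.MP_dadaab_nt.StandardWreathEmbeddings.result :
    ∃ n₀ : ℕ → ℕ,
      (∀ N n : ℕ, n₀ N ≤ n → ∀ (W₀ W : Type) [Group W₀] [Finite W₀] [Group W] (C : Subgroup W₀)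
        [C.Normal], C.index ≤ N → ∀ (p : W →* Equiv.Perm (Fin n)) (π : W →* W₀), Over N n C p π →
        UniversalStep π) ∧
      (∀ N n : ℕ, n₀ N ≤ n → ∀ (G W₀ : Type) [Group G] [Finite G] [Group W₀] [Finite W₀]
        (φ : W₀ →* MulAut G), Nat.card G ≤ N → φ.ker.index ≤ N →
        ∀ (Ω : Type) [Finite Ω] [MulAction (W₀ × Equiv.Perm (Fin n)) Ω] (f : Ω → Fin n),
        (∀ (w : W₀ × Equiv.Perm (Fin n)) (ω : Ω), f (w • ω) = w.2 (f ω)) →
        UniversalStep ((MonoidHom.fst W₀ (Equiv.Perm (Fin n))).comp
          (wreathPr Ω (φ.comp (MonoidHom.fst W₀ (Equiv.Perm (Fin n))))))) ∧
      (∀ (G : Type) [Group G] [Finite G] (n : ℕ), n₀ (Nat.card G) ≤ n →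
        RealizableAll (WreathOn (Equiv.Perm (Fin n)) (1 : Equiv.Perm (Fin n) →* MulAut G))) ∧
      ∀ (K L : Type) [Field K] [CharZero K] [Field L] [Algebra K L] [FiniteDimensional K L]
        [IsGalois K L] (W : ℕ → Type) [∀ i, Group (W i)] [∀ i, Finite (W i)]
        (p : ∀ i, W (i + 1) →* W i) (e₀ : W 0 ≃* (L ≃ₐ[K] L)), (∀ i, UniversalStep (p i)) →
        RegularTower p e₀ ∧ (Hilbertian K ∨ NumberField K → ProperTower p e₀) :=
  Pool.Agent.Zk31.SW.v4
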